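import Pool.Agent.L5helper31.TG.Defs

set_option autoImplicit false

open MeasureTheory Finset

namespace Pool.Agent.L5helper31.TG

namespace BdLe

/-- `(k + 1) ^ k / k!` -/
noncomputable def f (k : ℕ) : ℝ := (k + 1 : ℝ) ^ k / k.factorial

theorem f_pos (k : ℕ) : 0 < f k := by
  unfold f
  positivity

theorem key (k : ℕ) : ((k : ℝ) + 2) ^ (2 * k + 3) ≤ ((k : ℝ) + 1) ^ (k + 1) * ((k : ℝ) + 3) ^ (k + 2) := by
  set y : ℝ := (k : ℝ) + 2 with hy
  have hy2 : (2 : ℝ) ≤ y := by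
    have : (0 : ℝ) ≤ k := Nat.cast_nonneg k
    linarith
  have hy0 : 0 < y := by linarith
  have h1 : 1 + ((k + 1 : ℕ) : ℝ) * (-(1 / y ^ 2)) ≤ (1 + (-(1 / y ^ 2))) ^ (k + 1) := by
    apply one_add_mul_le_pow
    have : 1 / y ^ 2 ≤ 1 := by
      rw [div_le_one (by positivity)]
      nlinarith
    linarith
  have h2 : ((k : ℝ) + 1) ^ (k + 1) * ((k : ℝ) + 3) ^ (k + 2) =
      y ^ (2 * (k + 1)) * (1 + (-(1 / y ^ 2))) ^ (k + 1) * (y + 1) := by
    have e1 : (k : ℝ) + 3 = y + 1 := by rw [hy]; ring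
    have e2 : (k : ℝ) + 1 = y - 1 := by rw [hy]; ring
    rw [e1, e2, show k + 2 = (k + 1) + 1 from rfl, pow_succ (y + 1) (k + 1), ← mul_assoc, ← mul_pow,
      pow_mul, ← mul_pow]
    congr 2
    field_simp
    ring
  rw [h2]
  have h3 : y ^ (2 * (k + 1)) * (1 + ((k + 1 : ℕ) : ℝ) * (-(1 / y ^ 2))) * (y + 1) ≤
      y ^ (2 * (k + 1)) * (1 + (-(1 / y ^ 2))) ^ (k + 1) * (y + 1) :=
    mul_le_mul_of_nonneg_right (mul_le_mul_of_nonneg_left h1 (by positivity)) (by linarith)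
  refine le_trans ?_ h3
  have e3 : ((k + 1 : ℕ) : ℝ) = y - 1 := by push_cast; rw [hy]; ring
  rw [e3]
  have e4 : y ^ (2 * (k + 1)) * (1 + (y - 1) * (-(1 / y ^ 2))) * (y + 1) =
      y ^ (2 * k) * (y ^ 3 + 1) := by
    rw [show 2 * (k + 1) = 2 * k + 2 by ring, pow_add]
    field_simp
    ring
  rw [e4, pow_add]
  exact mul_le_mul_of_nonneg_left (by linarith) (by positivity)

theorem step (k : ℕ) : f (k + 1) * f (k + 1) ≤ f k * f (k + 2) := by
  unfold f
  rw [div_mul_div_comm, div_mul_div_comm, div_le_div_iff₀ (by positivity) (by positivity)]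
  have h := key k
  have e1 : (((k + 2).factorial : ℕ) : ℝ) = ((k : ℝ) + 2) * (((k : ℝ) + 1) * (k.factorial : ℝ)) := by
    rw [Nat.factorial_succ, Nat.factorial_succ]; push_cast; ring
  have e2 : (((k + 1).factorial : ℕ) : ℝ) = ((k : ℝ) + 1) * (k.factorial : ℝ) := by
    rw [Nat.factorial_succ]; push_cast; ring
  rw [e1, e2]
  push_cast
  rw [show (k : ℝ) + 1 + 1 = (k : ℝ) + 2 by ring, show (k : ℝ) + 2 + 1 = (k : ℝ) + 3 by ring]
  have h0 : (0 : ℝ) ≤ (k : ℝ) + 1 := by positivity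
  have e3 : ((k : ℝ) + 2) ^ (k + 1) * ((k : ℝ) + 2) ^ (k + 1) *
      ((k.factorial : ℝ) * (((k : ℝ) + 2) * (((k : ℝ) + 1) * (k.factorial : ℝ)))) =
      ((k : ℝ) + 2) ^ (2 * k + 3) * (((k : ℝ) + 1) * (k.factorial : ℝ) * (k.factorial : ℝ)) := by
    rw [show 2 * k + 3 = (k + 1) + (k + 1) + 1 by ring, pow_succ, pow_add]
    ring
  have e4 : ((k : ℝ) + 1) ^ k * ((k : ℝ) + 3) ^ (k + 2) *
      (((k : ℝ) + 1) * (k.factorial : ℝ) * (((k : ℝ) + 1) * (k.factorial : ℝ))) =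
      (((k : ℝ) + 1) ^ (k + 1) * ((k : ℝ) + 3) ^ (k + 2)) *
        (((k : ℝ) + 1) * (k.factorial : ℝ) * (k.factorial : ℝ)) := by
    rw [pow_succ]
    ring
  rw [e3, e4]
  exact mul_le_mul_of_nonneg_right h (by positivity)

theorem ratio {a b : ℕ} (h : a ≤ b) : f (a + 1) * f b ≤ f a * f (b + 1) := by
  have hm : Monotone fun k => f (k + 1) / f k := by
    apply monotone_nat_of_le_succ
    intro k
    rw [div_le_div_iff₀ (f_pos _) (f_pos _)]
    have := step k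
    rw [mul_comm (f (k + 1 + 1)) (f k)]
    exact this
  have := hm h
  simp only at this
  rw [div_le_div_iff₀ (f_pos _) (f_pos _)] at this
  rw [mul_comm (f a)]
  exact this

theorem low {n m : ℕ} (h1 : 1 ≤ m) (h2 : 2 * m ≤ n) : f m * f (n - m) ≤ f 1 * f (n - 1) := by
  induction m, h1 using Nat.le_induction with
  | base => exact le_refl _
  | succ m hm ih =>
    refine le_trans ?_ (ih (by omega))
    have h := ratio (a := m) (b := n - (m + 1)) (by omega)
    rwa [show n - (m + 1) + 1 = n - m by omega] at h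

theorem one {n : ℕ} (h : 1 ≤ n) : (n.factorial : ℝ) * (f 1 * f (n - 1)) = 2 * (n : ℝ) ^ n := by
  obtain ⟨k, rfl⟩ : ∃ k, n = k + 1 := ⟨n - 1, by omega⟩
  unfold f
  have hk : ((k.factorial : ℕ) : ℝ) ≠ 0 := by positivity
  simp only [Nat.add_sub_cancel, Nat.factorial_succ]
  push_cast
  field_simp
  simp only [Nat.factorial_one, Nat.factorial_zero]
  push_cast
  ring

theorem bd_eq (m z : ℕ) : bd m z = f m * f z := rfl

end BdLe

/-- TG4. The numerical inequalities. -/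
theorem bd_le {n m : ℕ} (h1 : 1 ≤ m) (h2 : m + 1 ≤ n) :
    (n.factorial : ℝ) * bd m (n - m) ≤ 2 * (n : ℝ) ^ n := by
  rw [← BdLe.one (by omega : 1 ≤ n), BdLe.bd_eq]
  refine mul_le_mul_of_nonneg_left ?_ (by positivity)
  rcases le_total (2 * m) n with h | h
  · exact BdLe.low h1 h
  · have := BdLe.low (n := n) (m := n - m) (by omega) (by omega)
    rw [show n - (n - m) = m by omega] at this
    rw [mul_comm]
    exact this

theorem bd_zero_le {n : ℕ} (h : 1 ≤ n) : (n.factorial : ℝ) * bd 0 n ≤ 4 * (n : ℝ) ^ n := by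
  have hn : (0 : ℝ) < n := by exact_mod_cast h
  have e1 : (n.factorial : ℝ) * bd 0 n = ((n : ℝ) + 1) ^ n := by
    unfold bd
    have hk : ((n.factorial : ℕ) : ℝ) ≠ 0 := by positivity
    simp only [Nat.factorial_zero, pow_zero, Nat.cast_one, div_one, one_mul]
    field_simp
  rw [e1]
  have h2 : 1 + 1 / (n : ℝ) ≤ Real.exp (1 / n) := by
    have := Real.add_one_le_exp (1 / (n : ℝ))
    linarith
  have h3 : (1 + 1 / (n : ℝ)) ^ n ≤ 4 := by
    calc (1 + 1 / (n : ℝ)) ^ n ≤ (Real.exp (1 / n)) ^ n := pow_le_pow_left₀ (by positivity) h2 n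
      _ = Real.exp 1 := by rw [← Real.exp_nat_mul]; congr 1; field_simp
      _ ≤ 4 := by have := Real.exp_one_lt_d9; linarith
  have h4 : ((n : ℝ) + 1) ^ n = (1 + 1 / (n : ℝ)) ^ n * (n : ℝ) ^ n := by
    rw [← mul_pow]; congr 1; field_simp
  rw [h4]
  exact mul_le_mul_of_nonneg_right h3 (by positivity)

end Pool.Agent.L5helper31.TG
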